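import Pool.Agent.W845.PM.Base

set_option autoImplicit false
open scoped Classical
open Filter Topology MeasureTheory ProbabilityTheory
open scoped ENNReal NNReal BigOperators

namespace Pool.Agent.W638.PM

open Pool.Agent.W845.PM

noncomputable section

theorem mem_del_edgeSet {V : Type} (G : SimpleGraph V) (v : V) (e : Sym2 V) :
    e ∈ (del G v).edgeSet ↔ e ∈ G.edgeSet ∧ v ∉ e := by
  induction e using Sym2.ind with
  | _ a b =>
    rw [SimpleGraph.mem_edgeSet, SimpleGraph.mem_edgeSet, Sym2.mem_iff]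
    constructor
    · rintro ⟨h1, h2, h3⟩
      refine ⟨h1, ?_⟩
      rintro (h | h)
      · exact h2 h.symm
      · exact h3 h.symm
    · rintro ⟨h1, h2⟩
      exact ⟨h1, fun h => h2 (Or.inl h.symm), fun h => h2 (Or.inr h.symm)⟩

theorem isM_del_iff {V : Type} (G : SimpleGraph V) (v : V) (M : Finset (Sym2 V)) :
    IsM (del G v) M ↔ IsM G M ∧ ∀ e ∈ M, v ∉ e := by
  unfold IsM
  constructor
  · rintro ⟨h1, h2⟩
    exact ⟨⟨fun e he => ((mem_del_edgeSet G v e).1 (h1 e he)).1, h2⟩,
      fun e he => ((mem_del_edgeSet G v e).1 (h1 e he)).2⟩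
  · rintro ⟨⟨h1, h2⟩, h3⟩
    exact ⟨fun e he => (mem_del_edgeSet G v e).2 ⟨h1 e he, h3 e he⟩, h2⟩

/-- the matchings through a fixed edge -/
theorem sum_edge {V : Type} [Fintype V] (z : ℝ) (G : SimpleGraph V) (v w : V)
    (hvw : G.Adj v w) :
    (∑ M ∈ Finset.univ.filter (fun M : Finset (Sym2 V) => IsM G M ∧ s(v, w) ∈ M), z ^ M.card) =
      z * Zp z (del (del G v) w) := by
  unfold Zp
  rw [Finset.mul_sum]
  refine Finset.sum_nbij' (fun M => M.erase s(v, w)) (fun M => insert s(v, w) M) ?_ ?_ ?_ ?_ ?_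
  · intro M hM
    rw [Finset.mem_filter] at hM ⊢
    obtain ⟨-, ⟨h1, h2⟩, h3⟩ := hM
    refine ⟨Finset.mem_univ _, ?_⟩
    rw [isM_del_iff, isM_del_iff]
    refine ⟨⟨⟨fun e he => h1 e (Finset.mem_of_mem_erase he), ?_⟩, ?_⟩, ?_⟩
    · intro e he f hf hef u hu
      exact h2 e (Finset.mem_of_mem_erase he) f (Finset.mem_of_mem_erase hf) hef u hu
    · intro e he
      rw [Finset.mem_erase] at he
      exact h2 _ h3 e he.2 (Ne.symm he.1) v (Sym2.mem_mk_left v w)
    · intro e he
      rw [Finset.mem_erase] at he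
      exact h2 _ h3 e he.2 (Ne.symm he.1) w (Sym2.mem_mk_right v w)
  · intro M hM
    rw [Finset.mem_filter] at hM ⊢
    have hM2 := hM.2
    rw [isM_del_iff, isM_del_iff] at hM2
    obtain ⟨⟨⟨h1, h2⟩, h3⟩, h4⟩ := hM2
    refine ⟨Finset.mem_univ _, ⟨?_, ?_⟩, Finset.mem_insert_self _ _⟩
    · intro e he
      rcases Finset.mem_insert.1 he with rfl | he
      · exact hvw
      · exact h1 e he
    · intro e he f hf hef u hu huf
      rcases Finset.mem_insert.1 he with he1 | he1
      · rcases Finset.mem_insert.1 hf with hf1 | hf1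
        · exact hef (he1.trans hf1.symm)
        · rw [he1] at hu
          rcases Sym2.mem_iff.1 hu with h5 | h5
          · exact h3 f hf1 (h5 ▸ huf)
          · exact h4 f hf1 (h5 ▸ huf)
      · rcases Finset.mem_insert.1 hf with hf1 | hf1
        · rw [hf1] at huf
          rcases Sym2.mem_iff.1 huf with h5 | h5
          · exact h3 e he1 (h5 ▸ hu)
          · exact h4 e he1 (h5 ▸ hu)
        · exact h2 e he1 f hf1 hef u hu huf
  · intro M hM
    rw [Finset.mem_filter] at hM
    exact Finset.insert_erase hM.2.2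
  · intro M hM
    rw [Finset.mem_filter, isM_del_iff, isM_del_iff] at hM
    refine Finset.erase_insert fun h => ?_
    exact hM.2.1.2 _ h (Sym2.mem_mk_left v w)
  · intro M hM
    rw [Finset.mem_filter] at hM
    have := Finset.card_erase_add_one hM.2.2
    rw [← this, pow_succ]
    ring

theorem cov_eq {V : Type} [Fintype V] (G : SimpleGraph V) (v : V) (M : Finset (Sym2 V))
    (hM : IsM G M) :
    (if ∀ e ∈ M, v ∉ e then (0 : ℝ) else 1) = ∑ w : V, if s(v, w) ∈ M then (1 : ℝ) else 0 := by
  by_cases h : ∀ e ∈ M, v ∉ e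
  · rw [if_pos h]
    symm
    refine Finset.sum_eq_zero fun w _ => ?_
    rw [if_neg]
    intro h'
    exact h _ h' (Sym2.mem_mk_left v w)
  · rw [if_neg h]
    push Not at h
    obtain ⟨e, he, hve⟩ := h
    obtain ⟨w, rfl⟩ := Sym2.mem_iff_exists.1 hve
    rw [Finset.sum_eq_single w]
    · rw [if_pos he]
    · intro u _ huw
      rw [if_neg]
      intro hu
      refine hM.2 _ he _ hu ?_ v (Sym2.mem_mk_left v w) (Sym2.mem_mk_left v u)
      intro heq
      exact huw (Sym2.congr_right.1 heq).symm
    · intro h'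
      exact absurd (Finset.mem_univ _) h'

theorem zrec : S_ZREC := by
  intro V _ z G v
  have h1 : Zp z G = ∑ M ∈ Finset.univ.filter (fun M : Finset (Sym2 V) => IsM G M),
      ((if ∀ e ∈ M, v ∉ e then z ^ M.card else 0) +
        ∑ w : V, if s(v, w) ∈ M then z ^ M.card else 0) := by
    unfold Zp
    refine Finset.sum_congr rfl fun M hM => ?_
    rw [Finset.mem_filter] at hM
    have h := cov_eq G v M hM.2
    have h2 : (∑ w : V, if s(v, w) ∈ M then z ^ M.card else 0) =
        z ^ M.card * ∑ w : V, if s(v, w) ∈ M then (1 : ℝ) else 0 := by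
      rw [Finset.mul_sum]
      refine Finset.sum_congr rfl fun w _ => ?_
      split_ifs <;> simp
    rw [h2, ← h]
    split_ifs <;> simp
  rw [h1, Finset.sum_add_distrib]
  congr 1
  · rw [← Finset.sum_filter, Finset.filter_filter]
    unfold Zp
    refine Finset.sum_congr ?_ fun _ _ => rfl
    ext M
    simp only [Finset.mem_filter, Finset.mem_univ, true_and, isM_del_iff]
  · rw [Finset.sum_comm, Finset.mul_sum]
    refine Finset.sum_congr rfl fun w _ => ?_
    rw [← Finset.sum_filter, Finset.filter_filter]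
    by_cases hvw : G.Adj v w
    · rw [if_pos hvw, sum_edge z G v w hvw]
    · rw [if_neg hvw, mul_zero]
      refine Finset.sum_eq_zero fun M hM => ?_
      rw [Finset.mem_filter] at hM
      exact absurd (hM.2.1.1 _ hM.2.2) hvw

theorem card_cov_le {V : Type} [Fintype V] (M : Finset (Sym2 V)) :
    (Finset.univ.filter (fun v : V => ¬ ∀ e ∈ M, v ∉ e)).card ≤ 2 * M.card := by
  have hsub : (Finset.univ.filter (fun v : V => ¬ ∀ e ∈ M, v ∉ e)) ⊆
      M.biUnion (fun e => e.toFinset) := by
    intro v hv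
    rw [Finset.mem_filter] at hv
    have h := hv.2
    push Not at h
    obtain ⟨e, he, hve⟩ := h
    rw [Finset.mem_biUnion]
    exact ⟨e, he, Sym2.mem_toFinset.2 hve⟩
  refine (Finset.card_le_card hsub).trans ?_
  refine (Finset.card_biUnion_le).trans ?_
  have : ∀ e ∈ M, e.toFinset.card ≤ 2 := by
    intro e _
    rw [Sym2.card_toFinset]
    split_ifs <;> omega
  refine (Finset.sum_le_sum this).trans ?_
  rw [Finset.sum_const, smul_eq_mul, mul_comm]

theorem card_unc_ge {V : Type} [Fintype V] (G : SimpleGraph V) (M : Finset (Sym2 V))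
    (hM : IsM G M) :
    dfc G ≤ ((Finset.univ.filter (fun v : V => ∀ e ∈ M, v ∉ e)).card : ℝ) := by
  have h1 := card_cov_le (V := V) M
  have h2 : (Finset.univ.filter (fun v : V => ∀ e ∈ M, v ∉ e)).card +
      (Finset.univ.filter (fun v : V => ¬ ∀ e ∈ M, v ∉ e)).card = Fintype.card V := by
    rw [Finset.card_filter_add_card_filter_not]
    rfl
  have h3 : M.card ≤ nu G := by
    unfold nu
    exact Finset.le_sup (f := Finset.card) (Finset.mem_filter.2 ⟨Finset.mem_univ _, hM⟩)
  unfold dfc
  have h2' : ((Finset.univ.filter (fun v : V => ∀ e ∈ M, v ∉ e)).card : ℝ) +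
      ((Finset.univ.filter (fun v : V => ¬ ∀ e ∈ M, v ∉ e)).card : ℝ) =
      (Fintype.card V : ℝ) := by exact_mod_cast h2
  have h1' : ((Finset.univ.filter (fun v : V => ¬ ∀ e ∈ M, v ∉ e)).card : ℝ) ≤
      2 * (M.card : ℝ) := by exact_mod_cast h1
  have h3' : (M.card : ℝ) ≤ (nu G : ℝ) := by exact_mod_cast h3
  linarith

theorem zsum : S_ZSUM := by
  intro V _ z G hz
  have h1 : ∑ v : V, Zp z (del G v) =
      ∑ M ∈ Finset.univ.filter (fun M : Finset (Sym2 V) => IsM G M),
        ((Finset.univ.filter (fun v : V => ∀ e ∈ M, v ∉ e)).card : ℝ) * z ^ M.card := by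
    have h2 : ∀ v : V, Zp z (del G v) =
        ∑ M ∈ Finset.univ.filter (fun M : Finset (Sym2 V) => IsM G M),
          if ∀ e ∈ M, v ∉ e then z ^ M.card else 0 := by
      intro v
      rw [← Finset.sum_filter, Finset.filter_filter]
      unfold Zp
      refine Finset.sum_congr ?_ fun _ _ => rfl
      ext M
      simp only [Finset.mem_filter, Finset.mem_univ, true_and, isM_del_iff]
    rw [Finset.sum_congr rfl fun v _ => h2 v, Finset.sum_comm]
    refine Finset.sum_congr rfl fun M _ => ?_
    rw [← Finset.sum_filter, Finset.sum_const, nsmul_eq_mul]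
  rw [h1]
  unfold Zp
  rw [Finset.mul_sum]
  refine Finset.sum_le_sum fun M hM => ?_
  rw [Finset.mem_filter] at hM
  exact mul_le_mul_of_nonneg_right (card_unc_ge G M hM.2) (pow_nonneg hz _)

theorem Zp_ge_one {V : Type} [Fintype V] (z : ℝ) (hz : 0 ≤ z) (G : SimpleGraph V) :
    1 ≤ Zp z G := by
  unfold Zp
  have h : (∅ : Finset (Sym2 V)) ∈
      Finset.univ.filter (fun M : Finset (Sym2 V) => IsM G M) := by
    rw [Finset.mem_filter]
    refine ⟨Finset.mem_univ _, ?_, ?_⟩
    · intro e he
      simp at he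
    · intro e he
      simp at he
  have h2 := Finset.single_le_sum (f := fun M : Finset (Sym2 V) => z ^ M.card)
    (fun M _ => pow_nonneg hz _) h
  simpa using h2

theorem U_le_one {V : Type} [Fintype V] (z : ℕ) (j : ℕ) (G : SimpleGraph V) (v : V) :
    U (gZ z) 1 j G v ≤ 1 := by
  cases j with
  | zero => exact le_rfl
  | succ j =>
    show gZ z j _ ≤ 1
    unfold gZ
    rw [ENNReal.inv_le_one]
    exact le_self_add

theorem U_toReal {V : Type} [Fintype V] (z : ℕ) (j : ℕ) (G : SimpleGraph V) (v : V) :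
    (U (gZ z) 1 (j + 1) G v).toReal =
      (1 + (z : ℝ) * ∑ w : V, if G.Adj v w then (U (gZ z) 1 j (del G v) w).toReal else 0)⁻¹ := by
  have hfin : ∀ w : V, (if G.Adj v w then U (gZ z) 1 j (del G v) w else 0) ≠ ⊤ := by
    intro w
    split_ifs
    · exact ne_top_of_le_ne_top ENNReal.one_ne_top (U_le_one z j _ w)
    · exact ENNReal.zero_ne_top
  show (gZ z j (∑ w : V, if G.Adj v w then U (gZ z) 1 j (del G v) w else 0)).toReal = _
  have hg : ∀ s : ℝ≥0∞, gZ z j s = (1 + (z : ℝ≥0∞) * s)⁻¹ := fun _ => rfl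
  rw [hg, ENNReal.toReal_inv, ENNReal.toReal_add ENNReal.one_ne_top, ENNReal.toReal_mul,
    ENNReal.toReal_sum fun w _ => hfin w]
  · congr 1
    rw [ENNReal.toReal_one, ENNReal.toReal_natCast]
    congr 2
    refine Finset.sum_congr rfl fun w _ => ?_
    split_ifs <;> simp
  · exact ENNReal.mul_ne_top (ENNReal.natCast_ne_top z)
      (ENNReal.sum_ne_top.2 fun w _ => hfin w)

theorem z1 : S_ZREC → S_ZSUM → S_Z1 := by
  intro hrec hsum V _ G z k
  have hz : (0 : ℝ) ≤ (z : ℝ) := Nat.cast_nonneg z
  have hpos : ∀ H : SimpleGraph V, 0 < Zp (z : ℝ) H := fun H =>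
    lt_of_lt_of_le one_pos (Zp_ge_one _ hz H)
  -- the ratios
  let x : SimpleGraph V → V → ℝ := fun H v => Zp (z : ℝ) (del H v) / Zp (z : ℝ) H
  have hx0 : ∀ H v, 0 ≤ x H v := fun H v => (div_pos (hpos _) (hpos _)).le
  have hxrec : ∀ H v, x H v =
      (1 + (z : ℝ) * ∑ w : V, if H.Adj v w then x (del H v) w else 0)⁻¹ := by
    intro H v
    have h := hrec V (z : ℝ) H v
    have hne : Zp (z : ℝ) (del H v) ≠ 0 := (hpos _).ne'
    have h2 : (1 + (z : ℝ) * ∑ w : V, if H.Adj v w then x (del H v) w else 0) =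
        Zp (z : ℝ) H / Zp (z : ℝ) (del H v) := by
      rw [h, add_div, div_self hne, mul_div_assoc, Finset.sum_div]
      congr 2
      refine Finset.sum_congr rfl fun w _ => ?_
      split_ifs
      · rfl
      · simp
    rw [h2, inv_div]
  have hu0 : ∀ j (H : SimpleGraph V) v, 0 ≤ (U (gZ z) 1 j H v).toReal :=
    fun j H v => ENNReal.toReal_nonneg
  have hmain : ∀ j : ℕ, (Even j → ∀ H v, x H v ≤ (U (gZ z) 1 j H v).toReal) ∧
      (¬ Even j → ∀ H v, (U (gZ z) 1 j H v).toReal ≤ x H v) := by
    intro j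
    induction j with
    | zero =>
      refine ⟨fun _ H v => ?_, fun h => absurd (by decide) h⟩
      show x H v ≤ ((1 : ℝ≥0∞)).toReal
      rw [ENNReal.toReal_one, hxrec]
      refine inv_le_one_of_one_le₀ ?_
      have : 0 ≤ (z : ℝ) * ∑ w : V, if H.Adj v w then x (del H v) w else 0 := by
        refine mul_nonneg hz (Finset.sum_nonneg fun w _ => ?_)
        split_ifs
        · exact hx0 _ _
        · exact le_rfl
      linarith
    | succ j ih =>
      constructor
      · intro hev H v
        have hodd : ¬ Even j := by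
          intro h
          exact (Nat.even_add_one.1 hev) h
        rw [U_toReal, hxrec]
        have hle : (∑ w : V, if H.Adj v w then (U (gZ z) 1 j (del H v) w).toReal else 0) ≤
            ∑ w : V, if H.Adj v w then x (del H v) w else 0 := by
          refine Finset.sum_le_sum fun w _ => ?_
          split_ifs
          · exact ih.2 hodd _ _
          · exact le_rfl
        have hnn : 0 ≤ ∑ w : V, if H.Adj v w then (U (gZ z) 1 j (del H v) w).toReal else 0 := by
          refine Finset.sum_nonneg fun w _ => ?_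
          split_ifs
          · exact hu0 _ _ _
          · exact le_rfl
        have h1 := mul_le_mul_of_nonneg_left hle hz
        have h2 := mul_nonneg hz hnn
        exact inv_anti₀ (by linarith) (by linarith)
      · intro hev H v
        have heven : Even j := by
          by_contra h
          exact hev (Nat.even_add_one.2 h)
        rw [U_toReal, hxrec]
        have hle : (∑ w : V, if H.Adj v w then x (del H v) w else 0) ≤
            ∑ w : V, if H.Adj v w then (U (gZ z) 1 j (del H v) w).toReal else 0 := by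
          refine Finset.sum_le_sum fun w _ => ?_
          split_ifs
          · exact ih.1 heven _ _
          · exact le_rfl
        have hnn : 0 ≤ ∑ w : V, if H.Adj v w then x (del H v) w else 0 := by
          refine Finset.sum_nonneg fun w _ => ?_
          split_ifs
          · exact hx0 _ _
          · exact le_rfl
        have h1 := mul_le_mul_of_nonneg_left hle hz
        have h2 := mul_nonneg hz hnn
        exact inv_anti₀ (by linarith) (by linarith)
  have h1 := hsum V (z : ℝ) G hz
  have h2 : dfc G ≤ ∑ v : V, x G v := by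
    have h3 : ∑ v : V, x G v = (∑ v : V, Zp (z : ℝ) (del G v)) / Zp (z : ℝ) G := by
      rw [Finset.sum_div]
    rw [h3, le_div_iff₀ (hpos _)]
    exact h1
  exact h2.trans (Finset.sum_le_sum fun v _ => (hmain (2 * k)).1 (even_two_mul k) G v)

end

end Pool.Agent.W638.PM
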